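import Pool.Agent.R207.AF7

set_option autoImplicit false

/-! # MP_0cf84d: the threshold for non-positive solutions

Both questions have the answer NO, in the unit ball of every dimension `n ≥ 2`, with `μ = 1` and smooth
compactly supported `c ≥ 0` and `h`.
-/

namespace Pool.Agent.Results.MP_0cf84d_an.Threshold

open MeasureTheory Set
open scoped ContDiff
open Pool.Agent.R207.QC (E)
open Pool.Agent.R207.AC (B IsSol firstEigenvalue)
open Pool.Agent.R207.AF (IsEigenfunction)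

variable {n : ℕ}

/-- the set of `λ ≥ 0` for which problem `P_λ` (with `μ = 1`) has a solution `u ≤ 0` -/
def NonposSet (Ω : Set (E n)) (c h : E n → ℝ) : Set ℝ :=
  {lam | 0 ≤ lam ∧ ∃ u : E n → ℝ, IsSol Ω c (fun _ => 1) h lam u ∧
    ∀ᵐ x ∂(volume.restrict Ω), u x ≤ 0}

/-- the threshold `λ̲` -/
noncomputable def threshold (Ω : Set (E n)) (c h : E n → ℝ) : ℝ := sInf (NonposSet Ω c h)

/-- the data are admissible: `c ≥ 0` and `h` smooth with compact support in `Ω`, `c ≢ 0`,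
hypothesis (a): `P_0` has no solution `u ≤ 0`, hypothesis (b): some `P_λ`, `λ > 0`, has one. -/
def Admissible (Ω : Set (E n)) (c h : E n → ℝ) : Prop :=
  (ContDiff ℝ ∞ c ∧ HasCompactSupport c ∧ tsupport c ⊆ Ω) ∧
  (ContDiff ℝ ∞ h ∧ HasCompactSupport h ∧ tsupport h ⊆ Ω) ∧
  (∀ x, 0 ≤ c x) ∧ (∃ x ∈ Ω, 0 < c x) ∧
  (0 : ℝ) ∉ NonposSet Ω c h ∧ ∃ lam : ℝ, 0 < lam ∧ lam ∈ NonposSet Ω c h

/-- Negative answer to question 1: there are admissible data such that for all `λ` in a left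
neighbourhood of the threshold `P_λ` has a solution. Negative answer to question 2: there are
admissible data such that `P_λ`, at the threshold `λ = λ̲`, has a smooth solution `u* ≤ 0` with
`ε φ₁ ≤ -u*` on the closed ball, where `φ₁ > 0` is a first eigenfunction and `ε > 0`. -/
theorem result (n : ℕ) (hn : 2 ≤ n) :
    (∃ c h : E n → ℝ, Admissible (B n) c h ∧ 0 < threshold (B n) c h ∧
      ∃ δ : ℝ, 0 < δ ∧ ∀ lam : ℝ, threshold (B n) c h - δ < lam → lam < threshold (B n) c h →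
        ∃ u : E n → ℝ, ContDiff ℝ ∞ u ∧ IsSol (B n) c (fun _ => 1) h lam u) ∧
    (∃ c h : E n → ℝ, Admissible (B n) c h ∧ 0 < threshold (B n) c h ∧
      ∃ (ustar φ₁ : E n → ℝ) (ε : ℝ), ContDiff ℝ ∞ ustar ∧
        IsSol (B n) c (fun _ => 1) h (threshold (B n) c h) ustar ∧
        Continuous φ₁ ∧ (∀ x ∈ B n, 0 < φ₁ x) ∧
        IsEigenfunction (B n) c (firstEigenvalue (B n) c) φ₁ ∧
        0 < ε ∧ (∀ x ∈ Metric.closedBall (0 : E n) 1, ε * φ₁ x ≤ -ustar x)) := by
  constructor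
  · obtain ⟨c, h, ustar, δ, hc, hh, hc0, hcp, hus, hneg, hsol, hno, hδ, hex⟩ :=
      Pool.Agent.R207.AF.q1_main (n := n) (by omega)
    have hae : ∀ᵐ x ∂(volume.restrict (B n)), ustar x ≤ 0 := Pool.Agent.R207.AC.ae_B hneg
    have hmem : (1 : ℝ) ∈ NonposSet (B n) c h := ⟨zero_le_one, ustar, hsol, hae⟩
    have hleast : IsLeast (NonposSet (B n) c h) 1 := by
      refine ⟨hmem, fun lam hlam => ?_⟩
      by_contra hcon
      obtain ⟨-, u, hu, hu0⟩ := hlam
      exact hno lam (not_le.mp hcon) u hu hu0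
    have hth : threshold (B n) c h = 1 := hleast.csInf_eq
    refine ⟨c, h, ⟨hc, hh, hc0, hcp, ?_, 1, one_pos, hmem⟩, ?_, δ, hδ, ?_⟩
    · rintro ⟨-, u, hu, hu0⟩
      exact hno 0 one_pos u hu hu0
    · rw [hth]
      exact one_pos
    · rw [hth]
      exact hex
  · obtain ⟨c, h, ustar, φ₁, Λ, ε, hc, hh, hc0, hcp, hΛ, hus, hsol, hno, hφc, hφp, hφe, hε, hle⟩ :=
      Pool.Agent.R207.AF.q2_main (n := n) (by omega)
    have hneg : ∀ x ∈ B n, ustar x ≤ 0 := by
      intro x hx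
      have h1 := hle x (Metric.ball_subset_closedBall hx)
      have h2 := mul_pos hε (hφp x hx)
      linarith
    have hae : ∀ᵐ x ∂(volume.restrict (B n)), ustar x ≤ 0 := Pool.Agent.R207.AC.ae_B hneg
    have hmem : Λ ∈ NonposSet (B n) c h := ⟨hΛ.le, ustar, hsol, hae⟩
    have hleast : IsLeast (NonposSet (B n) c h) Λ := by
      refine ⟨hmem, fun lam hlam => ?_⟩
      by_contra hcon
      obtain ⟨-, u, hu, hu0⟩ := hlam
      exact hno lam (not_le.mp hcon) u hu hu0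
    have hth : threshold (B n) c h = Λ := hleast.csInf_eq
    refine ⟨c, h, ⟨hc, hh, hc0, hcp, ?_, Λ, hΛ, hmem⟩, ?_, ustar, φ₁, ε, hus, ?_, hφc, hφp, hφe, hε, hle⟩
    · rintro ⟨-, u, hu, hu0⟩
      exact hno 0 hΛ u hu hu0
    · rw [hth]
      exact hΛ
    · rw [hth]
      exact hsol

end Pool.Agent.Results.MP_0cf84d_an.Threshold
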